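import Pool.Agent.Helper93.KP.St

/-!
# Project KP (MP_77e955_nt), module C8P: the weights of the fundamental lemma
-/

set_option autoImplicit false

namespace Pool.Agent.Helper39.KP

open Finset Filter Topology Pool.Agent.Helper93.KP
open Pool.Agent.Helper15.AB (ee Kl StDB StMT)
open Pool.Agent.Helper9.TW (iv bx Rg cc Dec WF bm ms ind UpP LoP gm Ax GUp GLo Qs fm ej)
open Pool.Agent.Helper18.TR (fam0 fam1 StBonf StFLmain)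

theorem hC8P (hB : StBonf) (hF : StFLmain) (h1 : StRTS) : StC8P := by
  obtain ⟨u, hu, hF⟩ := hF 3 (1 / 1000) (by norm_num) (by norm_num)
  refine ⟨u, hu, ?_⟩
  intro a n θ ha hθ
  have hQ : ∀ p ∈ Qs a θ, p.Prime ∧ p ≤ ⌊(a : ℝ) ^ θ⌋₊ ∧ 7 ≤ p := by
    intro p hp
    unfold Qs at hp
    rw [mem_filter, mem_Icc] at hp
    exact ⟨hp.2.1, hp.1.2, hp.1.1⟩
  have hg : ∀ p ∈ Qs a θ, 0 ≤ gn n p ∧ gn n p ≤ 3 / p ∧ gn n p ≤ 1 / 2 := by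
    intro p hp
    obtain ⟨k1, k2, k3⟩ := hQ p hp
    have k4 := h1 n p k1 k3
    have k5 : (7 : ℝ) ≤ p := by exact_mod_cast k3
    have k6 : (0 : ℝ) < p := by linarith
    have k7 : (rn n p : ℝ) ≤ 3 := by exact_mod_cast k4.trans (by norm_num)
    have k8 : gn n p ≤ 3 / p := by
      unfold gn
      exact div_le_div_of_nonneg_right k7 k6.le
    refine ⟨by unfold gn; positivity, k8, k8.trans ?_⟩
    rw [div_le_div_iff₀ k6 (by norm_num)]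
    linarith
  have hf := hF ⌊(a : ℝ) ^ θ⌋₊ (Qs a θ) (fun p hp => ⟨(hQ p hp).1, (hQ p hp).2.1⟩) (gn n) (by
    intro p hp
    obtain ⟨g1, g2, g3⟩ := hg p hp
    exact ⟨g1, g2, g3⟩)
  have hb := hB ⌊(a : ℝ) ^ θ⌋₊ u (Qs a θ) (gn n) hu (fun p hp => by
    obtain ⟨g1, g2, g3⟩ := hg p hp
    exact ⟨g1, by linarith⟩)
  have e0 : TK 0 a θ u n = ∑ T ∈ fam0 ⌊(a : ℝ) ^ θ⌋₊ u (Qs a θ),
      (-1 : ℝ) ^ T.card * ∏ p ∈ T, gn n p := by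
    unfold TK fm
    rw [if_pos rfl]
  have e1 : TK 1 a θ u n = ∑ T ∈ fam0 ⌊(a : ℝ) ^ θ⌋₊ u (Qs a θ) ∪ fam1 ⌊(a : ℝ) ^ θ⌋₊ u (Qs a θ),
      (-1 : ℝ) ^ T.card * ∏ p ∈ T, gn n p := by
    unfold TK fm
    rw [if_neg (by norm_num)]
  refine ⟨?_, by rw [e0]; exact hb.2, by rw [e0]; exact hf.1, by rw [e1]; exact hf.2,
    by rw [e1]; exact hb.1⟩
  intro k
  classical
  have hb2 := hB ⌊(a : ℝ) ^ θ⌋₊ u (Qs a θ) (fun p => if (p : ℤ) ∣ gk n k then (1 : ℝ) else 0) hu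
    (fun p _ => by split_ifs <;> norm_num)
  have hprod : ∏ p ∈ Qs a θ, (1 - (if (p : ℤ) ∣ gk n k then (1 : ℝ) else 0)) = qk a θ n k := by
    unfold qk
    split_ifs with h
    · refine Finset.prod_eq_one fun p hp => ?_
      rw [if_neg (h p hp), sub_zero]
    · push Not at h
      obtain ⟨p, hp, hd⟩ := h
      exact Finset.prod_eq_zero hp (by rw [if_pos hd, sub_self])
  rw [hprod] at hb2
  have t0 : tk 0 a θ u n k = ∑ T ∈ fam0 ⌊(a : ℝ) ^ θ⌋₊ u (Qs a θ),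
      (-1 : ℝ) ^ T.card * ∏ p ∈ T, (if (p : ℤ) ∣ gk n k then (1 : ℝ) else 0) := by
    unfold tk fm
    rw [if_pos rfl]
  have t1 : tk 1 a θ u n k =
      ∑ T ∈ fam0 ⌊(a : ℝ) ^ θ⌋₊ u (Qs a θ) ∪ fam1 ⌊(a : ℝ) ^ θ⌋₊ u (Qs a θ),
      (-1 : ℝ) ^ T.card * ∏ p ∈ T, (if (p : ℤ) ∣ gk n k then (1 : ℝ) else 0) := by
    unfold tk fm
    rw [if_neg (by norm_num)]
  rw [t0, t1]
  exact hb2

end Pool.Agent.Helper39.KP

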