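import Pool.Agent.Helper52.KP.StW

set_option autoImplicit false

namespace Pool.Agent.Helper39.KP

open Pool.Agent.Helper52.KP MeasureTheory Filter
open scoped ContDiff ComplexOrder Topology

/-- derivative of a determinant -/
theorem fd_det {m : ℕ} {E : Type} [NormedAddCommGroup E] [NormedSpace ℝ E]
    (M : E → Matrix (Fin m) (Fin m) ℂ) (z : E)
    (hM : ∀ l p, DifferentiableAt ℝ (fun z => M z l p) z) :
    DifferentiableAt ℝ (fun z => (M z).det) z ∧ ∀ v : E,
    fderiv ℝ (fun z => (M z).det) z v =
      ∑ l, ((M z).updateRow l (fun p => fderiv ℝ (fun z => M z l p) z v)).det := by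
  have h : HasFDerivAt (fun z => (M z).det)
      (∑ σ : Equiv.Perm (Fin m), ((Equiv.Perm.sign σ : ℤ) : ℂ) •
        ∑ i : Fin m, (∏ j ∈ Finset.univ.erase i, M z (σ j) j) • fderiv ℝ (fun z => M z (σ i) i) z) z := by
    have e : (fun z => (M z).det) = fun z => ∑ σ : Equiv.Perm (Fin m),
        ((Equiv.Perm.sign σ : ℤ) : ℂ) • ∏ i, M z (σ i) i := by
      funext z
      rw [Matrix.det_apply']
      rfl
    rw [e]
    refine HasFDerivAt.fun_sum (fun σ _ => ?_)
    refine HasFDerivAt.fun_const_smul ?_ _
    exact HasFDerivAt.finset_prod (fun i _ => (hM (σ i) i).hasFDerivAt)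
  refine ⟨h.differentiableAt, fun v => ?_⟩
  rw [h.fderiv]
  simp only [ContinuousLinearMap.coe_sum', ContinuousLinearMap.coe_smul', Finset.sum_apply,
    Pi.smul_apply, Matrix.det_apply']
  rw [Finset.sum_comm]
  refine Finset.sum_congr rfl (fun σ _ => ?_)
  rw [← Finset.mul_sum, smul_eq_mul]
  congr 1
  refine Eq.trans ?_ (Equiv.sum_comp σ (fun l => ∏ i, (M z).updateRow l
    (fun p => fderiv ℝ (fun z => M z l p) z v) (σ i) i))
  refine Finset.sum_congr rfl (fun i _ => ?_)
  rw [← Finset.mul_prod_erase Finset.univ _ (Finset.mem_univ i), smul_eq_mul, mul_comm]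
  congr 1
  · simp [Matrix.updateRow_apply]
  · refine Finset.prod_congr rfl (fun j hj => ?_)
    have hne : σ j ≠ σ i := fun h => (Finset.ne_of_mem_erase hj) (σ.injective h)
    rw [Matrix.updateRow_apply, if_neg hne]

theorem det_row {m : ℕ} (N : Matrix (Fin m) (Fin m) ℂ) (l : Fin m) (v : Fin m → ℂ) :
    (N.updateRow l v).det = ∑ p, v p * (N.updateRow l (Pi.single p 1)).det := by
  rw [Matrix.det_eq_sum_mul_adjugate_row _ l]
  refine Finset.sum_congr rfl (fun p _ => ?_)
  rw [Matrix.updateRow_self, Matrix.adjugate_apply, Matrix.updateRow_idem]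

theorem det_anti {m : ℕ} (A : Matrix (Fin m) (Fin m) ℂ) (j l : Fin m) (h : l ≠ j)
    (v w : Fin m → ℂ) :
    ((A.updateRow j v).updateRow l w).det = - ((A.updateRow j w).updateRow l v).det := by
  have e : ((A.updateRow j w).updateRow l v) =
      ((A.updateRow j v).updateRow l w).submatrix (Equiv.swap j l) id := by
    ext r c
    simp only [Matrix.submatrix_apply, id, Matrix.updateRow_apply]
    by_cases hr : r = j
    · subst hr
      simp [Ne.symm h]
    · by_cases hl : r = l
      · subst hl
        simp [h, Ne.symm h]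
      · rw [Equiv.swap_apply_of_ne_of_ne hr hl]
        simp [hr, hl]
  rw [e, Matrix.det_permute, Equiv.Perm.sign_swap (Ne.symm h)]
  simp

/-- the Piola identity for a family of first order operators -/
theorem piola {m : ℕ} (B : (Fin m → ℂ) → Matrix (Fin m) (Fin m) ℂ) (z : Fin m → ℂ)
    (hB : ∀ l p, DifferentiableAt ℝ (fun z => B z l p) z)
    (D : Fin m → ((Fin m → ℂ) → ℂ) → ℂ)
    (hD : ∀ k, ∃ (a b : Fin m → ℂ) (c d : ℂ), ∀ f, D k f = c * fderiv ℝ f z a + d * fderiv ℝ f z b)
    (hs : ∀ l k p, D k (fun z => B z l p) = D p (fun z => B z l k)) (j : Fin m) :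
    ∑ k, D k (fun z => (B z).adjugate k j) = 0 := by
  have h1 : ∀ k, D k (fun z => (B z).adjugate k j) =
      ∑ l ∈ Finset.univ.erase j, ∑ p, D k (fun z => B z l p) *
        (((B z).updateRow j (Pi.single k 1)).updateRow l (Pi.single p 1)).det := by
    intro k
    obtain ⟨a, b, c, d, hk⟩ := hD k
    have e : (fun z => (B z).adjugate k j) =
        fun z => ((B z).updateRow j (Pi.single k 1)).det := by
      funext z
      rw [Matrix.adjugate_apply]
    have hM : ∀ l p, DifferentiableAt ℝ (fun z => (B z).updateRow j (Pi.single k 1) l p) z := by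
      intro l p
      by_cases hl : l = j
      · subst hl
        simp only [Matrix.updateRow_self]
        exact differentiableAt_const _
      · simp only [Matrix.updateRow_ne hl]
        exact hB l p
    have key : ∀ v : Fin m → ℂ, fderiv ℝ (fun z => (B z).adjugate k j) z v =
        ∑ l ∈ Finset.univ.erase j, ∑ p, fderiv ℝ (fun z => B z l p) z v *
        (((B z).updateRow j (Pi.single k 1)).updateRow l (Pi.single p 1)).det := by
      intro v
      rw [e, (fd_det _ z hM).2 v, ← Finset.add_sum_erase Finset.univ _ (Finset.mem_univ j)]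
      have h0 : (((B z).updateRow j (Pi.single k 1)).updateRow j (fun p =>
          fderiv ℝ (fun z => (B z).updateRow j (Pi.single k 1) j p) z v)).det = 0 := by
        apply Matrix.det_eq_zero_of_row_eq_zero j
        intro p
        rw [Matrix.updateRow_self]
        simp only [Matrix.updateRow_self]
        simp
      rw [h0, zero_add]
      refine Finset.sum_congr rfl (fun l hl => ?_)
      have hne : l ≠ j := Finset.ne_of_mem_erase hl
      rw [det_row]
      refine Finset.sum_congr rfl (fun p _ => ?_)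
      simp only [Matrix.updateRow_ne hne]
    rw [hk, key, key, Finset.mul_sum, Finset.mul_sum, ← Finset.sum_add_distrib]
    refine Finset.sum_congr rfl (fun l _ => ?_)
    rw [Finset.mul_sum, Finset.mul_sum, ← Finset.sum_add_distrib]
    refine Finset.sum_congr rfl (fun p _ => ?_)
    rw [hk]
    ring
  rw [Finset.sum_congr rfl (fun k _ => h1 k), Finset.sum_comm]
  refine Finset.sum_eq_zero (fun l hl => ?_)
  have hne : l ≠ j := Finset.ne_of_mem_erase hl
  have h2 : ∑ k, ∑ p, D k (fun z => B z l p) *
        (((B z).updateRow j (Pi.single k 1)).updateRow l (Pi.single p 1)).det =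
      - ∑ k, ∑ p, D k (fun z => B z l p) *
        (((B z).updateRow j (Pi.single k 1)).updateRow l (Pi.single p 1)).det := by
    conv_lhs => rw [Finset.sum_comm]
    rw [← Finset.sum_neg_distrib]
    refine Finset.sum_congr rfl (fun k _ => ?_)
    rw [← Finset.sum_neg_distrib]
    refine Finset.sum_congr rfl (fun p _ => ?_)
    rw [hs l p k, det_anti _ _ _ hne]
    ring
  have h3 := self_eq_neg.1 h2
  exact h3

theorem hPIO (hCAL : StCAL) : StPIO := by
  intro m U hU u hu z hz j
  have hcf : ContDiffOn ℝ ∞ (cf u) U := by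
    have : ContDiff ℝ ∞ (fun x : ℝ => (x : ℂ)) := Complex.ofRealCLM.contDiff
    exact this.comp_contDiffOn hu
  have hdb : ∀ p, ContDiffOn ℝ ∞ (db p (cf u)) U := fun p =>
    ((hCAL m p p (cf u) (cf u) z).2.2.2.2 U hU hcf).2
  have hdzdb : ∀ l p, ContDiffOn ℝ ∞ (dz l (db p (cf u))) U := fun l p =>
    ((hCAL m l l (db p (cf u)) (cf u) z).2.2.2.2 U hU (hdb p)).1
  have hd : ∀ l p, DifferentiableAt ℝ (fun z => hes u z l p) z := by
    intro l p
    exact ((hdzdb l p).contDiffAt (hU.mem_nhds hz)).differentiableAt (by simp)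
  have cda : ∀ f : (Fin m → ℂ) → ℂ, ContDiffOn ℝ ∞ f U → ∀ y ∈ U, ContDiffAt ℝ 2 f y :=
    fun f hf y hy => (hf.contDiffAt (hU.mem_nhds hy)).of_le (WithTop.coe_le_coe.2 (le_top : (2 : ℕ∞) ≤ ⊤))
  constructor
  · refine piola (fun z => hes u z) z hd (fun k f => db k f z) ?_ ?_ j
    · intro k
      refine ⟨Pi.single k 1, Pi.single k Complex.I, 1 / 2, Complex.I / 2, fun f => ?_⟩
      simp only [db]
      ring
    · intro l k p
      show db k (dz l (db p (cf u))) z = db p (dz l (db k (cf u))) z
      have a1 : db k (dz l (db p (cf u))) z = dz l (db k (db p (cf u))) z :=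
        ((hCAL m l k (db p (cf u)) (cf u) z).2.2.2.1 (cda _ (hdb p) z hz)).1
      have a2 : db p (dz l (db k (cf u))) z = dz l (db p (db k (cf u))) z :=
        ((hCAL m l p (db k (cf u)) (cf u) z).2.2.2.1 (cda _ (hdb k) z hz)).1
      rw [a1, a2]
      have a3 : db k (db p (cf u)) =ᶠ[𝓝 z] db p (db k (cf u)) := by
        filter_upwards [hU.mem_nhds hz] with y hy
        exact ((hCAL m p k (cf u) (cf u) y).2.2.2.1 (cda _ hcf y hy)).2.2
      simp only [dz, a3.fderiv_eq]
  · have e : ∀ k, (fun z => (hes u z).adjugate j k) =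
        fun z => ((hes u z).transpose).adjugate k j := by
      intro k
      funext z
      rw [← Matrix.adjugate_transpose]
      rfl
    have := piola (fun z => (hes u z).transpose) z (fun l p => hd p l) (fun k f => dz k f z) ?_ ?_ j
    · simp only [e]
      exact this
    · intro k
      refine ⟨Pi.single k 1, Pi.single k Complex.I, 1 / 2, -Complex.I / 2, fun f => ?_⟩
      simp only [dz]
      ring
    · intro l k p
      show dz k (dz p (db l (cf u))) z = dz p (dz k (db l (cf u))) z
      exact ((hCAL m p k (db l (cf u)) (cf u) z).2.2.2.1 (cda _ (hdb l) z hz)).2.1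

end Pool.Agent.Helper39.KP
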